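import Pool.Agent.Run7.h472.OH.Iface3
import Pool.Agent.Run7.h472.OH.WBD

/-!
# Piece REG of project OH (helper472): one scale by all bad blocks of a smaller scale
-/

set_option autoImplicit false
open MeasureTheory ProbabilityTheory Filter Set
open scoped ENNReal Pointwise Topology

namespace Run7.h416.OH

open Pool.Agent.N662.FP
open Pool.Agent.Run7.h472.OH

theorem blk_mem_bx {L n N ρ : ℕ} (hn : 1 ≤ n) (hρ : (L : ℝ) * N / n + 1 ≤ ρ) {z : ℤ × ℤ}
    (hz : InR L N 0 z) : blk n z ∈ bx ρ := by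
  have hn0 : (0 : ℝ) < n := by exact_mod_cast hn
  have hn' : (0 : ℤ) < n := by exact_mod_cast hn
  have h1 : (L : ℝ) * N + n ≤ ρ * n := by
    have h2 : ((L : ℝ) * N / n + 1) * n ≤ ρ * n := mul_le_mul_of_nonneg_right hρ hn0.le
    have h3 : ((L : ℝ) * N / n + 1) * n = (L : ℝ) * N + n := by
      field_simp
    linarith
  have h2 : (L : ℤ) * N + n ≤ ρ * n := by exact_mod_cast h1
  obtain ⟨r1, r2⟩ := hz
  simp only [Prod.fst_zero, Prod.snd_zero, mul_zero, sub_zero] at r1 r2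
  rw [abs_le] at r1 r2
  obtain ⟨b1, b2, b3, b4⟩ := blk_iff hn (rfl : blk n z = blk n z)
  have key : ∀ a y : ℤ, (n : ℤ) * a ≤ y → y < (n : ℤ) * a + n → -((L : ℤ) * N) ≤ y →
      y ≤ (L : ℤ) * N → -(ρ : ℤ) ≤ a ∧ a ≤ ρ := by
    intro a y e1 e2 e3 e4
    constructor
    · by_contra hcon
      have h5 : a + 1 ≤ -(ρ : ℤ) := by omega
      have h6 : (n : ℤ) * (a + 1) ≤ n * (-(ρ : ℤ)) := mul_le_mul_of_nonneg_left h5 hn'.le
      nlinarith
    · by_contra hcon
      have h5 : (ρ : ℤ) + 1 ≤ a := by omega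
      have h6 : (n : ℤ) * (ρ + 1) ≤ n * a := mul_le_mul_of_nonneg_left h5 hn'.le
      nlinarith
  have k1 := key _ _ b1 b2 r1.1 r1.2
  have k2 := key _ _ b3 b4 r2.1 r2.2
  unfold bx
  rw [Finset.mem_product, Finset.mem_Icc, Finset.mem_Icc]
  exact ⟨k1, k2⟩

theorem t_REG (hW : S_WBD) (hD : S_DET2) : S_REG := by
  intro μ c C L hc n N hn hN g hg hgc x ρ hρ
  have : Nonempty {q : Sq // Val L N 0 q} := ⟨⟨triv N 0, val_triv hN 0⟩⟩
  have hn0 : (0 : ℝ) < n := by exact_mod_cast hn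
  have hcn : 0 < c * n := mul_pos hc.c_pos hn0
  have hC := hc.C_pos
  have hW0 : ∀ b, 0 ≤ W μ L n b x := fun b => (hW μ c C L hc n hn b x).2.1
  have hb0 : 0 ≤ bsum μ L n g x (bx ρ) := by
    unfold bsum
    exact Finset.sum_nonneg fun b _ => hW0 b
  have hK0 : 0 ≤ (1 + 2 * (C * (L + 1) * N) / (c * n)) * g := by positivity
  refine ciSup_le ?_
  rintro ⟨⟨m, q⟩, hq⟩
  show μ (em (q (Fin.last m) - q 0)) - tmS x ⟨m, q⟩ ≤ _
  set p : ℕ → ℤ × ℤ := fun i => q ⟨min i m, by omega⟩ with hp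
  have hpi : ∀ i (hi : i ≤ m), p i = q ⟨i, by omega⟩ := by
    intro i hi
    simp only [hp]
    congr 1
    exact Fin.ext (by simp [hi])
  have hpm : p m = q (Fin.last m) := hpi m le_rfl
  have hp0 : p 0 = q 0 := hpi 0 (Nat.zero_le _)
  have hP : IsP p m := by
    intro i hi
    have := hq.step ⟨i, hi⟩
    rw [hpi (i + 1) hi, hpi i hi.le]
    exact this
  have htm : tm x p 0 m = tmS x ⟨m, q⟩ := by
    unfold tm tmS
    rw [← Finset.range_eq_Ico, Finset.sum_range]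
    refine Finset.sum_congr rfl fun i _ => ?_
    rw [hpi i.1 i.2.le, hpi (i.1 + 1) i.2]
    rfl
  rw [← htm, ← hpm, ← hp0]
  rcases le_or_gt (μ (em (p m - p 0)) - tm x p 0 m) 0 with h0 | h0
  · linarith
  obtain ⟨k, r, hr, hdef⟩ := hD μ c C L hc n hn g hg hgc x m p hP
  have hst : blk N (p 0) = 0 := by
    rw [hp0]
    exact hq.start
  have hin : InR L N 0 (p m) := by
    rw [hpm]
    exact hq.inR _
  have hμ : μ (em (p m - p 0)) ≤ C * (L + 1) * N := by
    have h1 := hc.hi (p m - p 0)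
    have h2 : (nm (p m - p 0) : ℝ) ≤ ((L : ℝ) + 1) * N := by
      exact_mod_cast nm_valid hN hst hin
    have h4 : C * (nm (p m - p 0) : ℝ) ≤ C * (((L : ℝ) + 1) * N) :=
      mul_le_mul_of_nonneg_left h2 hC.le
    linarith
  have ht : tm x p 0 m ≤ C * (L + 1) * N := by linarith
  have hbad : ∑ b ∈ badSet μ L n g x r k, W μ L n b x ≤ bsum μ L n g x (bx ρ) := by
    classical
    unfold bsum
    refine Finset.sum_le_sum_of_subset_of_nonneg ?_ (fun b _ _ => hW0 b)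
    intro b hb
    unfold badSet at hb
    simp only [Finset.mem_filter, Finset.mem_image, Finset.mem_range] at hb
    obtain ⟨⟨t, ht, rfl⟩, hb2⟩ := hb
    obtain ⟨s, hs, hs2⟩ := hr t (by omega)
    rw [Finset.mem_filter]
    refine ⟨?_, hb2⟩
    rw [hs2]
    refine blk_mem_bx hn hρ ?_
    rw [hpi s hs]
    exact hq.inR _
  have hmul : (1 + 2 * tm x p 0 m / (c * n)) * g ≤ (1 + 2 * (C * (L + 1) * N) / (c * n)) * g := by
    refine mul_le_mul_of_nonneg_right ?_ hg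
    have : 2 * tm x p 0 m / (c * n) ≤ 2 * (C * (L + 1) * N) / (c * n) :=
      div_le_div_of_nonneg_right (by linarith) hcn.le
    linarith
  linarith

end Run7.h416.OH
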